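import Pool.Agent.Lib_MP_c175fd.Final

/-!
# Sharp asymptotics of the critical time in Wiener sausage percolation

For every dimension `d ≥ 4` the critical time of the Wiener sausage percolation model, divided by the
norming function `ff d r` (`r ^ ((4 - d) / 2)` for `d ≥ 5`, `√(log (1 / r))` for `d = 4`), converges to a
positive constant as the radius `r` tends to zero; the constant is `1 / π` in dimension four.
-/

open MeasureTheory ProbabilityTheory Filter Topology WSP

namespace Pool.Agent.Results.MP_c175fd_pr.SharpCriticalTime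

theorem result : ∃ cs : ℕ → ℝ, cs 4 = 1 / Real.pi ∧ ∀ d : ℕ, 4 ≤ d → 0 < cs d ∧
    ∀ {Ω : Type*} [MeasurableSpace Ω] (P : Measure Ω) [IsProbabilityMeasure P] (M : WModel d P),
      Tendsto (fun r => M.critTime r / ff d r) (𝓝[>] 0) (𝓝 (cs d)) ∧
      ∀ tc : ℝ → ℝ, (∀ᶠ r in 𝓝[>] (0 : ℝ),
          (∀ t, 0 ≤ t → t < tc r → ∀ᵐ ω ∂P, ¬ Percolates (M.occ r t ω)) ∧
          (∀ t, tc r < t → ∀ᵐ ω ∂P, Percolates (M.occ r t ω))) →
        Tendsto (fun r => tc r / ff d r) (𝓝[>] 0) (𝓝 (cs d)) :=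
  main_theorem

end Pool.Agent.Results.MP_c175fd_pr.SharpCriticalTime
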